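import Pool.Agent.Helper78.JT.Goals
import Pool.Agent.Helper81.DT.RNB
import Pool.Agent.Helper61.DT.TRF
import Pool.Agent.Helper61.DT.DEPCNT

/-!
# Project JT, packet RNJ: renaming of tuples, dependence
-/

namespace Pool.Agent.Helper89.JT

open scoped Classical
open Pool.Agent.Helper78.DT Pool.Agent.Helper78.JT
open Pool.Agent.Helper81.DT (ev_ren bad_ren ren_length)
open Pool.Agent.Helper61.DT (trf ev_congr bad_imp vars_ncard)

section dep

variable {V : Type} [Fintype V] [DecidableEq V] {r : ℕ}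

theorem badJ_imp {t : ℕ} {k : ℝ} {g : Fin r → DL V} {x y : V → Bool}
    (h : ∀ v ∈ varsJ g, x v = y v) (hx : BadJ t k g x) : BadJ t k g y := by
  obtain ⟨j, hj⟩ := hx
  exact ⟨j, bad_imp (fun v hv => h v ⟨j, hv⟩) hj⟩

omit [Fintype V] [DecidableEq V] in
theorem evJ_congr (g : Fin r → DL V) {x y : V → Bool} (h : ∀ v ∈ varsJ g, x v = y v) :
    (fun j => ev (g j) x) = fun j => ev (g j) y :=
  funext fun j => ev_congr (g j) fun v hv => h v ⟨j, hv⟩

theorem dep_lo (H : (Fin r → Bool) → Bool) (t : ℕ) (k : ℝ) (g : Fin r → DL V) :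
    Dep (varsJ g) (loJ H t k g) := by
  intro x y h
  unfold loJ
  rw [evJ_congr g h]
  exact and_congr_right fun _ => not_congr ⟨badJ_imp h, badJ_imp fun v hv => (h v hv).symm⟩

theorem dep_hi (H : (Fin r → Bool) → Bool) (t : ℕ) (k : ℝ) (g : Fin r → DL V) :
    Dep (varsJ g) (hiJ H t k g) := by
  intro x y h
  unfold hiJ
  rw [evJ_congr g h]
  exact or_congr_right ⟨badJ_imp h, badJ_imp fun v hv => (h v hv).symm⟩

omit [DecidableEq V] in
theorem varsJ_ncard (t s : ℕ) (g : Fin r → DL V) (h : ∀ j, Wid t (g j) ∧ (g j).length ≤ s) :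
    (varsJ g).ncard ≤ r * (t * s) := by
  have h1 : varsJ g = ⋃ j ∈ (Finset.univ : Finset (Fin r)), vars (g j) := by
    ext v
    simp [varsJ]
  rw [h1]
  have h2 : ∀ S : Finset (Fin r), (⋃ j ∈ S, vars (g j)).ncard ≤ S.card * (t * s) := by
    intro S
    induction S using Finset.induction_on with
    | empty => simp
    | insert a S ha ih =>
      rw [Finset.set_biUnion_insert, Finset.card_insert_of_notMem ha, Nat.succ_mul, Nat.add_comm]
      refine (Set.ncard_union_le _ _).trans (Nat.add_le_add ?_ ih)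
      exact (vars_ncard t (g a) (h a).1).trans (Nat.mul_le_mul_left t (h a).2)
  have h3 := h2 Finset.univ
  rwa [Finset.card_univ, Fintype.card_fin] at h3

end dep

/-- **Packet RNJ.** -/
theorem rnj : RnjStmt := by
  intro V V' _ _ _ _ π r t s k H g
  refine ⟨?_, ?_, dep_lo H t k g, dep_hi H t k g, fun h => varsJ_ncard t s g h⟩
  · intro hπ
    have hev : ∀ y : V' → Bool, (fun j => ev (ren π (g j)) y) =
        fun j => ev (g j) fun v => y (π v) := fun y => funext fun j => ev_ren π (g j) y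
    have hbad : ∀ y : V' → Bool, BadJ t k (fun j => ren π (g j)) y ↔
        BadJ t k g fun v => y (π v) := by
      intro y
      unfold BadJ
      refine exists_congr fun j => ?_
      exact bad_ren trf π (g j) t k (fun a ha b hb => hπ ⟨j, ha⟩ ⟨j, hb⟩) y
    have hlo : ∀ y, loJ H t k (fun j => ren π (g j)) y ↔ loJ H t k g fun v => y (π v) := by
      intro y
      unfold loJ
      rw [hev, hbad]
    have hhi : ∀ y, hiJ H t k (fun j => ren π (g j)) y ↔ hiJ H t k g fun v => y (π v) := by
      intro y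
      unfold hiJ
      rw [hev, hbad]
    refine ⟨hlo, hhi, ?_, ?_⟩
    · rw [pr_congr hlo]
      exact trf V V' π (varsJ g) _ hπ (dep_lo H t k g)
    · rw [pr_congr hhi]
      exact trf V V' π (varsJ g) _ hπ (dep_hi H t k g)
  · intro j
    refine ⟨fun hw e' he' => ?_, ren_length π (g j)⟩
    obtain ⟨e, he, rfl⟩ := List.mem_map.1 he'
    exact (Pool.Agent.Helper81.DT.card_imt π e.1).trans (hw e he)

end Pool.Agent.Helper89.JT
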